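import Pool.Agent.Helper77.SGC.Goals
import Pool.Agent.Helper68.Ru.Siegel

/-!
Packet 13018 (SGC-SIGR, MP_a41896_nt): Siegel's lemma with a bounded exponent, by helper39.
-/

set_option autoImplicit false

open NumberField

namespace Pool.Agent.Helper39.SGC

open Pool.Agent.Helper77.SGC Pool.Agent.Helper68.Ru

theorem sigr : SIGR := by
  classical
  intro K _ _
  obtain ⟨c, hc⟩ := siegel_aux K
  refine ⟨max 1 |c|, le_max_left _ _, ?_⟩
  intro α β _ _ a A ρ hA h1 h2 hb
  set c' := max 1 |c| with hc'
  have hc1 : 1 ≤ c' := le_max_left _ _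
  have hcc : |c| ≤ c' := le_max_right _ _
  have hβ : 1 ≤ Fintype.card β := by omega
  have hq : (1:ℝ) ≤ (Fintype.card β : ℝ) := by exact_mod_cast hβ
  have hbase : 1 ≤ c' * (Fintype.card β : ℝ) * A := by
    have h3 : 1 ≤ c' * (Fintype.card β : ℝ) := one_le_mul_of_one_le_of_one_le hc1 hq
    exact one_le_mul_of_one_le_of_one_le h3 hA
  by_cases ha : a = 0
  · have : Nonempty β := Fintype.card_pos_iff.1 (by omega)
    obtain ⟨b⟩ := this
    refine ⟨Pi.single b 1, ?_, by rw [ha, Matrix.zero_mulVec], ?_⟩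
    · intro h
      have := congrFun h b
      simp at this
    · intro l
      have h4 : house (((Pi.single b 1 : β → 𝓞 K) l : 𝓞 K) : K) ≤ 1 := by
        by_cases hl : l = b
        · subst hl
          simpa using house_one_le K
        · rw [Pi.single_eq_of_ne hl]
          have := house_zero' K
          push_cast
          linarith
      refine h4.trans ?_
      exact one_le_mul_of_one_le_of_one_le hc1 (one_le_pow₀ hbase)
  · have hα : 0 < Fintype.card α := by
      by_contra hcon
      have : IsEmpty α := Fintype.card_eq_zero_iff.1 (by omega)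
      apply ha
      ext i
      exact (IsEmpty.false i).elim
    obtain ⟨ξ, hξ0, hξ, hbd⟩ := hc α β a A ha hα h1 hb
    refine ⟨ξ, hξ0, hξ, fun l => (hbd l).trans ?_⟩
    set x : ℝ := (Fintype.card α : ℝ) / ((Fintype.card β : ℝ) - (Fintype.card α : ℝ)) with hx
    have hαr : (0:ℝ) < (Fintype.card α : ℝ) := by exact_mod_cast hα
    have h1r : (0 : ℝ) < (Fintype.card β : ℝ) - (Fintype.card α : ℝ) := by
      have : (Fintype.card α : ℝ) < (Fintype.card β : ℝ) := by exact_mod_cast h1
      linarith
    have h2r : (Fintype.card α : ℝ) ≤ ρ * ((Fintype.card β : ℝ) - (Fintype.card α : ℝ)) := by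
      have h3 : ((Fintype.card α : ℕ) : ℝ) ≤ ((ρ * (Fintype.card β - Fintype.card α) : ℕ) : ℝ) := by
        exact_mod_cast h2
      rw [Nat.cast_mul, Nat.cast_sub h1.le] at h3
      exact h3
    have hx0 : 0 ≤ x := by
      rw [hx]
      exact div_nonneg hαr.le h1r.le
    have hx1 : x ≤ (ρ : ℝ) := by
      rw [hx, div_le_iff₀ h1r]
      exact h2r
    calc c * (c * (Fintype.card β : ℝ) * A) ^ x
        ≤ |c * (c * (Fintype.card β : ℝ) * A) ^ x| := le_abs_self _
      _ = |c| * |(c * (Fintype.card β : ℝ) * A) ^ x| := abs_mul _ _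
      _ ≤ c' * |c * (Fintype.card β : ℝ) * A| ^ x := by
          gcongr
          exact Real.abs_rpow_le_abs_rpow _ _
      _ ≤ c' * (c' * (Fintype.card β : ℝ) * A) ^ x := by
          gcongr
          rw [abs_mul, abs_mul, abs_of_nonneg (by linarith : (0:ℝ) ≤ (Fintype.card β : ℝ)),
            abs_of_nonneg (by linarith : (0:ℝ) ≤ A)]
          gcongr
      _ ≤ c' * (c' * (Fintype.card β : ℝ) * A) ^ (ρ : ℝ) := by
          gcongr
      _ = c' * (c' * (Fintype.card β : ℝ) * A) ^ ρ := by rw [Real.rpow_natCast]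

end Pool.Agent.Helper39.SGC
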